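import Pool.Agent.W921.RF.Defs

/-!
# Project RF: no embedding in the group of computable permutations
-/

set_option autoImplicit false

namespace Pool.Agent.W64.RF.Noe

open Pool.Agent.W921.RF

theorem task (h1 : S_WDV) (h2 : S_EVW) : S_NOE := by
  rintro ⟨f, hinj, hcomp⟩
  have hrr : ∀ a b : FreeGroup (Fin 2),
      rep (1 : ℤ) (rho kap) a = rep (1 : ℤ) (rho kap) b →
      (f.comp (rep (1 : ℤ) (rho kap)).rangeRestrict) a =
        (f.comp (rep (1 : ℤ) (rho kap)).rangeRestrict) b := by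
    intro a b hab
    show f _ = f _
    congr 1
    exact Subtype.ext hab
  have hrr2 : ∀ a b : FreeGroup (Fin 2),
      (f.comp (rep (1 : ℤ) (rho kap)).rangeRestrict) a =
        (f.comp (rep (1 : ℤ) (rho kap)).rangeRestrict) b →
      rep (1 : ℤ) (rho kap) a = rep (1 : ℤ) (rho kap) b := by
    intro a b hab
    exact congrArg Subtype.val (hinj hab)
  obtain ⟨e, hs, hc⟩ := h2 (f.comp (rep (1 : ℤ) (rho kap)).rangeRestrict) (fun g => hcomp _)
  obtain ⟨hA, hB0, hB1⟩ := h1 kap e
  have hW : (f.comp (rep (1 : ℤ) (rho kap)).rangeRestrict) (FreeGroup.mk (wd (ai e))) ≠ 1 := by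
    intro h
    apply hA
    have h3 := hrr2 (FreeGroup.mk (wd (ai e))) 1 (by rw [h, map_one])
    rw [h3, map_one]
  by_cases hk : kap e = 0
  · have hV : (f.comp (rep (1 : ℤ) (rho kap)).rangeRestrict) (FreeGroup.mk (wd (bi e))) = 1 := by
      rw [hrr (FreeGroup.mk (wd (bi e))) 1 (by rw [hB0 hk, map_one]), map_one]
    have hno : ¬ ∃ s, Found e s := by
      intro h
      unfold kap at hk
      rw [dif_pos h] at hk
      omega
    obtain ⟨p, hp⟩ : ∃ p, (f.comp (rep (1 : ℤ) (rho kap)).rangeRestrict)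
        (FreeGroup.mk (wd (ai e))) p ≠ p := by
      by_contra! h
      exact hW (Equiv.ext h)
    obtain ⟨s1, hs1⟩ := hc (wd (ai e)) p
    obtain ⟨s2, hs2⟩ := hc (wd (bi e)) p
    apply hno
    refine ⟨max (max s1 s2) (p + 1), p, ?_, ⟨_, hs1 _ ?_, hp⟩, ?_⟩
    · omega
    · omega
    · rw [hs2 _ (by omega), hV]
      rfl
  · have hex : ∃ s, Found e s := by
      by_contra h
      unfold kap at hk
      rw [dif_neg h] at hk
      exact hk rfl
    obtain ⟨s, p, -, ⟨q, hq, hqp⟩, hv⟩ := hex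
    have e1 := hs s _ p q hq
    have e2 := hs s _ p p hv
    have e3 : (f.comp (rep (1 : ℤ) (rho kap)).rangeRestrict) (FreeGroup.mk (wd (ai e))) =
        (f.comp (rep (1 : ℤ) (rho kap)).rangeRestrict) (FreeGroup.mk (wd (bi e))) ^ kap e := by
      rw [← map_pow]
      apply hrr
      rw [map_pow]
      exact hB1 hk
    apply hqp
    rw [e1, e3]
    exact Equiv.Perm.pow_apply_eq_self_of_apply_eq_self e2.symm _

end Pool.Agent.W64.RF.Noe
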